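import Mathlib

set_option autoImplicit false

namespace Pool.Agent.Results.MP_0f6055_nt.ZerosNotRegular

open Submodule

/-! ## Definitions -/

/-- `IsZeroBlock n i j`: the binary digits of `n` at the positions `i, i+1, ..., j-1`
(position `l` is the coefficient of `2^l`) form a block of zeros, i.e. a maximal run of consecutive
digits `0` in the binary expansion of `n` written without leading zeros.  They are all `0`, the
digit just above (position `j`) is `1`, and either the run starts at position `0` or the digit just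
below it is `1`.  The length of the block is `j - i`. -/
def IsZeroBlock (n i j : ℕ) : Prop :=
  i < j ∧ (∀ l, i ≤ l → l < j → n.testBit l = false) ∧ n.testBit j = true ∧
    (i = 0 ∨ n.testBit (i - 1) = true)

open Classical in
/-- The generalized Baum-Sweet sequence: `b r 0 = 1`, and for `n ≥ 1`, `b r n = 1` if the length of
every block of zeros of `n` is a multiple of `r`, and `b r n = 0` otherwise. -/
noncomputable def b (r n : ℕ) : ℕ :=
  if n = 0 ∨ ∀ i j, IsZeroBlock n i j → r ∣ (j - i) then 1 else 0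

/-- `h r n` is the `n`-th (counting from `0`) natural number `m` with `b r m = 0`, in increasing
order. -/
noncomputable def h (r : ℕ) : ℕ → ℕ := Nat.nth (fun m => b r m = 0)

/-- The `k`-kernel of an integer sequence `u`: all the sequences `n ↦ u (k^i n + j)` with
`0 ≤ j < k^i`. -/
def kernel (k : ℕ) (u : ℕ → ℤ) : Set (ℕ → ℤ) :=
  {v | ∃ i j : ℕ, j < k ^ i ∧ v = fun n => u (k ^ i * n + j)}

/-- `u` is `k`-regular: the `ℤ`-module generated by its `k`-kernel is finitely generated. -/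
def IsRegular (k : ℕ) (u : ℕ → ℤ) : Prop :=
  (span ℤ (kernel k u)).FG

/-! ## Bounded regular sequences -/

lemma diff_regular (k : ℕ) (u : ℕ → ℤ) (hu : IsRegular k u) :
    IsRegular k (fun n => u (n + 1) - u n) := by
  unfold IsRegular at *
  let S : (ℕ → ℤ) →ₗ[ℤ] (ℕ → ℤ) :=
    { toFun := fun v n => v (n + 1)
      map_add' := fun _ _ => rfl
      map_smul' := fun _ _ => rfl }
  have hFG : (span ℤ (kernel k u) ⊔ Submodule.map S (span ℤ (kernel k u))).FG :=
    hu.sup (hu.map S)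
  refine hFG.of_le ?_
  rw [span_le]
  rintro v ⟨i, j, hj, rfl⟩
  have h2 : (fun n => u (k ^ i * n + j)) ∈ span ℤ (kernel k u) :=
    subset_span ⟨i, j, hj, rfl⟩
  have h1 : (fun n => u (k ^ i * n + j + 1)) ∈
      span ℤ (kernel k u) ⊔ Submodule.map S (span ℤ (kernel k u)) := by
    by_cases hj1 : j + 1 < k ^ i
    · exact mem_sup_left (subset_span ⟨i, j + 1, hj1, rfl⟩)
    · have hj2 : j + 1 = k ^ i := by omega
      refine mem_sup_right ?_
      refine ⟨fun n => u (k ^ i * n + 0), subset_span ⟨i, 0, by omega, rfl⟩, ?_⟩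
      funext n
      show u (k ^ i * (n + 1) + 0) = u (k ^ i * n + j + 1)
      congr 1
      rw [mul_add, mul_one]
      omega
  exact sub_mem h1 (mem_sup_left h2)

/-- Bounded regular sequences give a finite classification of indices. -/
lemma exists_classes (k : ℕ) (d : ℕ → ℤ) (B : ℤ) (hd : ∀ n, |d n| ≤ B)
    (hreg : IsRegular k d) :
    ∃ (Q : Type) (_ : Finite Q) (cl : ℕ → Q), ∀ n m, cl n = cl m →
      ∀ t s, s < k ^ t → d (k ^ t * n + s) = d (k ^ t * m + s) := by
  obtain ⟨S, hS⟩ := hreg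
  have hbd : ∀ v ∈ span ℤ (kernel k d), ∃ K : ℤ, ∀ n, |v n| ≤ K := by
    intro v hv
    induction hv using span_induction with
    | mem v hv =>
      obtain ⟨i, j, _, rfl⟩ := hv
      exact ⟨B, fun n => hd _⟩
    | zero => exact ⟨0, fun n => by simp⟩
    | add x y _ _ hx hy =>
      obtain ⟨K1, h1⟩ := hx
      obtain ⟨K2, h2⟩ := hy
      exact ⟨K1 + K2, fun n => (abs_add_le _ _).trans (add_le_add (h1 n) (h2 n))⟩
    | smul a x _ hx =>
      obtain ⟨K1, h1⟩ := hx
      refine ⟨|a| * K1, fun n => ?_⟩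
      rw [Pi.smul_apply, smul_eq_mul, abs_mul]
      exact mul_le_mul_of_nonneg_left (h1 n) (abs_nonneg a)
  have hbS : ∀ g : S, ∃ K : ℤ, ∀ n, |g.1 n| ≤ K := fun g =>
    hbd g.1 (hS ▸ subset_span g.2)
  choose K hK using hbS
  refine ⟨(g : S) → Set.Icc (-(K g)) (K g), inferInstance,
    fun n g => ⟨g.1 n, abs_le.1 (hK g n)⟩, ?_⟩
  intro n m hnm t s hs
  have hg : ∀ g ∈ (S : Set (ℕ → ℤ)), g n = g m := by
    intro g hg
    have := congrFun hnm ⟨g, hg⟩
    simpa using congrArg Subtype.val this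
  have hall : ∀ v ∈ span ℤ (S : Set (ℕ → ℤ)), v n = v m := by
    intro v hv
    induction hv using span_induction with
    | mem v hv => exact hg v hv
    | zero => rfl
    | add x y _ _ hx hy => simp [hx, hy]
    | smul a x _ hx => simp [hx]
  have hmem : (fun n => d (k ^ t * n + s)) ∈ span ℤ (S : Set (ℕ → ℤ)) := by
    rw [hS]
    exact subset_span ⟨t, s, hs, rfl⟩
  exact hall _ hmem

/-! ## First elements of blocks -/

/-- The block `[k^t n, k^t (n+1))` contains an element of `P`. -/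
def NE (P : ℕ → Prop) (k n t : ℕ) : Prop := ∃ s, s < k ^ t ∧ P (k ^ t * n + s)

/-- `k^t n + s` is the first element of `P` in its block. -/
def IsFirst (P : ℕ → Prop) (k n t s : ℕ) : Prop :=
  s < k ^ t ∧ P (k ^ t * n + s) ∧ ∀ s' < s, ¬ P (k ^ t * n + s')

lemma NE_succ (P : ℕ → Prop) (k n t : ℕ) (hk : 1 ≤ k) :
    NE P k n (t + 1) ↔ ∃ c < k, NE P k (k * n + c) t := by
  have hkt : 0 < k ^ t := by positivity
  constructor
  · rintro ⟨s, hs, hP⟩
    refine ⟨s / k ^ t, ?_, s % k ^ t, Nat.mod_lt _ hkt, ?_⟩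
    · rw [Nat.div_lt_iff_lt_mul hkt]
      rwa [pow_succ, mul_comm] at hs
    · have : k ^ t * (k * n + s / k ^ t) + s % k ^ t = k ^ (t + 1) * n + s := by
        have := Nat.div_add_mod s (k ^ t)
        calc _ = k ^ t * k * n + (k ^ t * (s / k ^ t) + s % k ^ t) := by ring
          _ = _ := by rw [this, pow_succ]
      rw [this]
      exact hP
  · rintro ⟨c, hc, s, hs, hP⟩
    refine ⟨k ^ t * c + s, ?_, ?_⟩
    · calc k ^ t * c + s < k ^ t * c + k ^ t := by omega
        _ = k ^ t * (c + 1) := by ring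
        _ ≤ k ^ t * k := Nat.mul_le_mul_left _ hc
        _ = k ^ (t + 1) := by rw [pow_succ]
    · have : k ^ (t + 1) * n + (k ^ t * c + s) = k ^ t * (k * n + c) + s := by ring
      rw [this]
      exact hP

/-- Nonemptiness of blocks is eventually periodic in the level. -/
lemma NE_periodic (P : ℕ → Prop) (k : ℕ) (hk : 1 ≤ k) (Q : Type) [Finite Q] (cl : ℕ → Q)
    (hcl : ∀ n m, cl n = cl m → ∀ t s, s < k ^ t → (P (k ^ t * n + s) ↔ P (k ^ t * m + s))) :
    ∃ t0 π : ℕ, 1 ≤ π ∧ ∀ t, t0 ≤ t → ∀ n, NE P k n (t + π) ↔ NE P k n t := by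
  classical
  have hW : ∀ t n, NE P k n t ↔ cl n ∈ {q : Q | ∃ m, cl m = q ∧ NE P k m t} := by
    intro t n
    constructor
    · intro hn
      exact ⟨n, rfl, hn⟩
    · rintro ⟨m, hm, s, hs, hP⟩
      exact ⟨s, hs, (hcl m n hm t s hs).1 hP⟩
  obtain ⟨t0, t1, hne, heq⟩ := Finite.exists_ne_map_eq_of_infinite
    (fun t : ℕ => {q : Q | ∃ m, cl m = q ∧ NE P k m t})
  have key : ∀ t0 t1 : ℕ, t0 < t1 →
      ({q : Q | ∃ m, cl m = q ∧ NE P k m t0} = {q : Q | ∃ m, cl m = q ∧ NE P k m t1}) →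
      ∃ t0 π : ℕ, 1 ≤ π ∧ ∀ t, t0 ≤ t → ∀ n, NE P k n (t + π) ↔ NE P k n t := by
    intro t0 t1 hlt heq
    refine ⟨t0, t1 - t0, by omega, ?_⟩
    intro t ht
    induction t, ht using Nat.le_induction with
    | base =>
      intro n
      rw [show t0 + (t1 - t0) = t1 by omega, hW t1 n, hW t0 n, heq]
    | succ t ht ih =>
      intro n
      rw [show t + 1 + (t1 - t0) = (t + (t1 - t0)) + 1 by omega, NE_succ P k n _ hk,
        NE_succ P k n _ hk]
      constructor
      · rintro ⟨c, hc, h1⟩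
        exact ⟨c, hc, (ih _).1 h1⟩
      · rintro ⟨c, hc, h1⟩
        exact ⟨c, hc, (ih _).2 h1⟩
  rcases lt_or_gt_of_ne hne with hlt | hlt
  · exact key t0 t1 hlt heq
  · exact key t1 t0 hlt heq.symm

/-- The first elements of blocks scale by `k^π` up to a bounded error. -/
lemma first_scale (P : ℕ → Prop) (k : ℕ) (hk : 1 ≤ k) (t0 π : ℕ)
    (hper : ∀ t, t0 ≤ t → ∀ n, NE P k n (t + π) ↔ NE P k n t) :
    ∀ t, t0 ≤ t → ∀ n s, IsFirst P k n t s →
      ∃ s', IsFirst P k n (t + π) s' ∧ |(s' : ℤ) - k ^ π * s| ≤ k ^ (t0 + π) := by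
  classical
  intro t ht
  induction t, ht using Nat.le_induction with
  | base =>
    intro n s hs
    have h1 : NE P k n (t0 + π) := (hper t0 le_rfl n).2 ⟨s, hs.1, hs.2.1⟩
    refine ⟨Nat.find h1, ⟨(Nat.find_spec h1).1, (Nat.find_spec h1).2, ?_⟩, ?_⟩
    · intro s' hs' hP
      exact Nat.find_min h1 hs' ⟨hs'.trans (Nat.find_spec h1).1, hP⟩
    · have h2 := (Nat.find_spec h1).1
      have h3 := hs.1
      have h4 : ((Nat.find h1 : ℕ) : ℤ) < k ^ (t0 + π) := by exact_mod_cast h2
      have h5 : (k : ℤ) ^ π * s ≤ k ^ (t0 + π) := by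
        rw [pow_add, mul_comm ((k : ℤ) ^ t0)]
        apply mul_le_mul_of_nonneg_left _ (by positivity)
        exact_mod_cast h3.le
      have h6 : (0 : ℤ) ≤ (k : ℤ) ^ π * s := by positivity
      have h7 : (0 : ℤ) ≤ ((Nat.find h1 : ℕ) : ℤ) := by positivity
      rw [abs_le]
      constructor <;> linarith
  | succ t ht ih =>
    intro n s hs
    have hkt : 0 < k ^ t := by positivity
    have hktp : 0 < k ^ (t + π) := by positivity
    have hc : s / k ^ t < k := by
      rw [Nat.div_lt_iff_lt_mul hkt]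
      have := hs.1
      rwa [pow_succ, mul_comm] at this
    have hsplit : ∀ x : ℕ, k ^ t * (k * n + x / k ^ t) + x % k ^ t = k ^ (t + 1) * n + x := by
      intro x
      have := Nat.div_add_mod x (k ^ t)
      calc _ = k ^ t * k * n + (k ^ t * (x / k ^ t) + x % k ^ t) := by ring
        _ = _ := by rw [this, pow_succ]
    have hsplit' : ∀ x : ℕ, k ^ (t + π) * (k * n + x / k ^ (t + π)) + x % k ^ (t + π) =
        k ^ (t + 1 + π) * n + x := by
      intro x
      have := Nat.div_add_mod x (k ^ (t + π))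
      calc _ = k ^ (t + π) * k * n + (k ^ (t + π) * (x / k ^ (t + π)) + x % k ^ (t + π)) := by ring
        _ = _ := by
          rw [this]
          ring
    set c := s / k ^ t with hcdef
    have h1 : IsFirst P k (k * n + c) t (s % k ^ t) := by
      refine ⟨Nat.mod_lt _ hkt, ?_, ?_⟩
      · rw [hsplit s]
        exact hs.2.1
      · intro s' hs' hP
        apply hs.2.2 (k ^ t * c + s')
        · have := Nat.div_add_mod s (k ^ t)
          rw [← hcdef] at this
          omega
        · have : k ^ (t + 1) * n + (k ^ t * c + s') = k ^ t * (k * n + c) + s' := by ring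
          rw [this]
          exact hP
    obtain ⟨s1, hs1, hs1'⟩ := ih _ _ h1
    refine ⟨k ^ (t + π) * c + s1, ⟨?_, ?_, ?_⟩, ?_⟩
    · calc k ^ (t + π) * c + s1 < k ^ (t + π) * c + k ^ (t + π) := by
            have := hs1.1
            omega
        _ = k ^ (t + π) * (c + 1) := by ring
        _ ≤ k ^ (t + π) * k := Nat.mul_le_mul_left _ hc
        _ = k ^ (t + 1 + π) := by ring
    · have : k ^ (t + 1 + π) * n + (k ^ (t + π) * c + s1) =
          k ^ (t + π) * (k * n + c) + s1 := by ring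
      rw [this]
      exact hs1.2.1
    · intro x hx hP
      have hxc : x / k ^ (t + π) ≤ c := by
        rw [← Nat.lt_succ_iff, Nat.div_lt_iff_lt_mul hktp]
        have := hs1.1
        calc x < k ^ (t + π) * c + s1 := hx
          _ < k ^ (t + π) * c + k ^ (t + π) := by omega
          _ = c.succ * k ^ (t + π) := by
            rw [Nat.succ_eq_add_one]
            ring
      rcases hxc.eq_or_lt with hxc | hxc
      · have h2 : x % k ^ (t + π) < s1 := by
          have := Nat.div_add_mod x (k ^ (t + π))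
          rw [hxc] at this
          omega
        apply hs1.2.2 _ h2
        have h3 := hsplit' x
        rw [hxc] at h3
        rw [h3]
        exact hP
      · have h2 : NE P k (k * n + x / k ^ (t + π)) (t + π) := by
          refine ⟨x % k ^ (t + π), Nat.mod_lt _ hktp, ?_⟩
          rw [hsplit' x]
          exact hP
        rw [hper t ht] at h2
        obtain ⟨y, hy, hPy⟩ := h2
        apply hs.2.2 (k ^ t * (x / k ^ (t + π)) + y)
        · have := Nat.div_add_mod s (k ^ t)
          rw [← hcdef] at this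
          calc k ^ t * (x / k ^ (t + π)) + y < k ^ t * (x / k ^ (t + π)) + k ^ t := by omega
            _ = k ^ t * (x / k ^ (t + π) + 1) := by ring
            _ ≤ k ^ t * c := Nat.mul_le_mul_left _ hxc
            _ ≤ k ^ t * c + s % k ^ t := Nat.le_add_right _ _
            _ = s := this
        · have : k ^ (t + 1) * n + (k ^ t * (x / k ^ (t + π)) + y) =
            k ^ t * (k * n + x / k ^ (t + π)) + y := by ring
          rw [this]
          exact hPy
    · have h2 : ((k ^ (t + π) * c + s1 : ℕ) : ℤ) - k ^ π * s = (s1 : ℤ) - k ^ π * (s % k ^ t : ℕ) := by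
        have h3 : (s : ℤ) = k ^ t * c + (s % k ^ t : ℕ) := by
          exact_mod_cast (Nat.div_add_mod s (k ^ t)).symm
        rw [h3]
        push_cast
        ring
      rw [h2]
      exact hs1'


/-! ## The Baum-Sweet sets -/

/-- Every block of zeros has length divisible by `r`. -/
def Good (r n : ℕ) : Prop := ∀ i j, IsZeroBlock n i j → r ∣ (j - i)

lemma good_zero (r : ℕ) : Good r 0 := by
  intro i j hij
  have := hij.2.2.1
  simp at this

lemma b_eq_one_iff (r n : ℕ) : b r n = 1 ↔ Good r n := by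
  unfold b
  by_cases hn : n = 0
  · subst hn
    simp [good_zero]
  · unfold Good
    by_cases h2 : ∀ i j, IsZeroBlock n i j → r ∣ (j - i)
    · rw [if_pos (Or.inr h2)]
      simpa using h2
    · simp only [hn, false_or, h2, if_false]
      simp

lemma b_eq_zero_iff (r n : ℕ) : b r n = 0 ↔ ¬ Good r n := by
  rw [← b_eq_one_iff]
  unfold b
  split_ifs <;> simp

lemma good_bit1 (r m : ℕ) : Good r (2 * m + 1) ↔ Good r m := by
  have hs : ∀ l, (2 * m + 1).testBit (l + 1) = m.testBit l := by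
    intro l
    rw [Nat.testBit_succ]
    congr 1
    omega
  have h0 : (2 * m + 1).testBit 0 = true := by
    simp [Nat.testBit_zero]
  constructor
  · intro hg i j hij
    have : IsZeroBlock (2 * m + 1) (i + 1) (j + 1) := by
      refine ⟨by have := hij.1; omega, ?_, ?_, ?_⟩
      · intro l hl1 hl2
        obtain ⟨l', rfl⟩ : ∃ l', l = l' + 1 := ⟨l - 1, by omega⟩
        rw [hs]
        exact hij.2.1 l' (by omega) (by omega)
      · rw [hs]; exact hij.2.2.1
      · right
        rw [Nat.add_sub_cancel]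
        rcases hij.2.2.2 with h1 | h1
        · rw [h1]; exact h0
        · rcases Nat.eq_zero_or_pos i with hi | hi
          · rw [hi]; exact h0
          · obtain ⟨i', rfl⟩ : ∃ i', i = i' + 1 := ⟨i - 1, by omega⟩
            rw [hs]
            simpa using h1
    have := hg _ _ this
    rwa [Nat.add_sub_add_right] at this
  · intro hg i j hij
    rcases Nat.eq_zero_or_pos i with hi | hi
    · exfalso
      have h1 := hij.2.1 0 (by omega) (by have := hij.1; omega)
      rw [h0] at h1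
      exact absurd h1 (by simp)
    · obtain ⟨i', rfl⟩ : ∃ i', i = i' + 1 := ⟨i - 1, by omega⟩
      obtain ⟨j', rfl⟩ : ∃ j', j = j' + 1 := ⟨j - 1, by have := hij.1; omega⟩
      rw [Nat.add_sub_add_right]
      apply hg
      refine ⟨by have := hij.1; omega, ?_, ?_, ?_⟩
      · intro l hl1 hl2
        rw [← hs]
        exact hij.2.1 (l + 1) (by omega) (by omega)
      · rw [← hs]; exact hij.2.2.1
      · rcases Nat.eq_zero_or_pos i' with hi' | hi'
        · left; exact hi'
        · right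
          obtain ⟨i'', rfl⟩ : ∃ i'', i' = i'' + 1 := ⟨i' - 1, by omega⟩
          rcases hij.2.2.2 with h1 | h1
          · omega
          · rw [Nat.add_sub_cancel] at h1 ⊢
            rw [hs] at h1
            exact h1

lemma testBit_shift_lt (r m l : ℕ) (hl : l < r) : (2 ^ r * m).testBit l = false := by
  rw [Nat.testBit_two_pow_mul]
  simp
  omega

lemma testBit_shift_ge (r m l : ℕ) : (2 ^ r * m).testBit (l + r) = m.testBit l := by
  rw [Nat.testBit_two_pow_mul]
  simp

lemma good_shift (r m : ℕ) : Good r (2 ^ r * m) ↔ Good r m := by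
  constructor
  · intro hg i j hij
    rcases Nat.eq_zero_or_pos i with hi | hi
    · subst hi
      have : IsZeroBlock (2 ^ r * m) 0 (j + r) := by
        refine ⟨by have := hij.1; omega, ?_, ?_, Or.inl rfl⟩
        · intro l _ hl2
          rcases lt_or_ge l r with hl | hl
          · exact testBit_shift_lt r m l hl
          · obtain ⟨l', rfl⟩ : ∃ l', l = l' + r := ⟨l - r, by omega⟩
            rw [testBit_shift_ge]
            exact hij.2.1 l' (by omega) (by omega)
        · rw [testBit_shift_ge]; exact hij.2.2.1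
      have := hg _ _ this
      rw [Nat.sub_zero] at this ⊢
      exact (Nat.dvd_add_left (dvd_refl r)).1 this
    · have : IsZeroBlock (2 ^ r * m) (i + r) (j + r) := by
        refine ⟨by have := hij.1; omega, ?_, ?_, Or.inr ?_⟩
        · intro l hl1 hl2
          obtain ⟨l', rfl⟩ : ∃ l', l = l' + r := ⟨l - r, by omega⟩
          rw [testBit_shift_ge]
          exact hij.2.1 l' (by omega) (by omega)
        · rw [testBit_shift_ge]; exact hij.2.2.1
        · rcases hij.2.2.2 with h1 | h1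
          · omega
          · rw [show i + r - 1 = (i - 1) + r by omega, testBit_shift_ge]
            exact h1
      have := hg _ _ this
      rwa [Nat.add_sub_add_right] at this
  · intro hg i j hij
    have hjr : r ≤ j := by
      by_contra hlt
      have h1 := hij.2.2.1
      rw [testBit_shift_lt r m j (by omega)] at h1
      exact absurd h1 (by simp)
    obtain ⟨j', rfl⟩ : ∃ j', j = j' + r := ⟨j - r, by omega⟩
    rcases Nat.eq_zero_or_pos i with hi | hi
    · subst hi
      rw [Nat.sub_zero]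
      rcases Nat.eq_zero_or_pos j' with hj' | hj'
      · rw [hj']; simp
      · have : IsZeroBlock m 0 j' := by
          refine ⟨hj', ?_, ?_, Or.inl rfl⟩
          · intro l _ hl2
            rw [← testBit_shift_ge r]
            exact hij.2.1 _ (by omega) (by omega)
          · rw [← testBit_shift_ge r]
            exact hij.2.2.1
        have := hg _ _ this
        rw [Nat.sub_zero] at this
        exact (Nat.dvd_add_left (dvd_refl r)).2 this
    · have hb : (2 ^ r * m).testBit (i - 1) = true := by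
        rcases hij.2.2.2 with h1 | h1
        · omega
        · exact h1
      have hir : r ≤ i - 1 := by
        by_contra hlt
        rw [testBit_shift_lt r m _ (by omega)] at hb
        exact absurd hb (by simp)
      obtain ⟨i', rfl⟩ : ∃ i', i = i' + r := ⟨i - r, by omega⟩
      rw [Nat.add_sub_add_right]
      apply hg
      refine ⟨by have := hij.1; omega, ?_, ?_, Or.inr ?_⟩
      · intro l hl1 hl2
        rw [← testBit_shift_ge r]
        exact hij.2.1 _ (by omega) (by omega)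
      · rw [← testBit_shift_ge r]
        exact hij.2.2.1
      · rw [← testBit_shift_ge r, show i' - 1 + r = i' + r - 1 by omega]
        exact hb

/-- A good even number is divisible by `2^r`. -/
lemma good_even (r n : ℕ) (hg : Good r n) (he : 2 ∣ n) : 2 ^ r ∣ n := by
  classical
  rcases Nat.eq_zero_or_pos n with hn | hn
  · subst hn; exact dvd_zero _
  have hex := Nat.exists_testBit_of_ne_zero hn.ne'
  have h0 : n.testBit 0 = false := by
    rw [Nat.testBit_zero]
    simp
    omega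
  set j := Nat.find hex with hj
  have hj1 : n.testBit j = true := Nat.find_spec hex
  have hj2 : ∀ l < j, n.testBit l = false := by
    intro l hl
    have := Nat.find_min hex hl
    simpa using this
  have hjpos : 0 < j := by
    rcases Nat.eq_zero_or_pos j with h1 | h1
    · rw [h1, h0] at hj1
      exact absurd hj1 (by simp)
    · exact h1
  have hblock : IsZeroBlock n 0 j := ⟨hjpos, fun l _ hl => hj2 l hl, hj1, Or.inl rfl⟩
  have hdvd := hg _ _ hblock
  rw [Nat.sub_zero] at hdvd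
  have hle : r ≤ j := Nat.le_of_dvd hjpos hdvd
  rw [Nat.dvd_iff_mod_eq_zero]
  apply Nat.eq_of_testBit_eq
  intro i
  rw [Nat.testBit_mod_two_pow, Nat.zero_testBit]
  by_cases hi : i < r
  · simp [hj2 i (by omega)]
  · simp [hi]

/-- The gap: no good numbers whose expansion starts with `101`. -/
lemma not_good_gap (r m j : ℕ) (hr : 2 ≤ r) (h1 : 5 * 2 ^ j ≤ m) (h2 : m < 6 * 2 ^ j) :
    ¬ Good r m := by
  intro hg
  have hdiv : m / 2 ^ j = 5 := by
    apply Nat.div_eq_of_lt_le
    · linarith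
    · linarith
  have ht : ∀ l, m.testBit (l + j) = (5 : ℕ).testBit l := by
    intro l
    rw [← Nat.testBit_div_two_pow, hdiv]
  have hblock : IsZeroBlock m (1 + j) (2 + j) := by
    refine ⟨by omega, ?_, ?_, Or.inr ?_⟩
    · intro l hl1 hl2
      have : l = 1 + j := by omega
      rw [this, ht]
      decide
    · rw [ht]; decide
    · rw [show 1 + j - 1 = 0 + j by omega, ht]
      decide
  have := hg _ _ hblock
  rw [show 2 + j - (1 + j) = 1 by omega] at this
  have := Nat.le_of_dvd one_pos this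
  omega

lemma good_three (r : ℕ) : Good r 3 := by
  have h1 : Good r 1 := by
    have := (good_bit1 r 0).2 (good_zero r)
    simpa using this
  have := (good_bit1 r 1).2 h1
  simpa using this

lemma good_landmark (r i : ℕ) : Good r (3 * 2 ^ (r * i)) := by
  induction i with
  | zero => simpa using good_three r
  | succ i ih =>
    have : 3 * 2 ^ (r * (i + 1)) = 2 ^ r * (3 * 2 ^ (r * i)) := by ring
    rw [this]
    exact (good_shift r _).2 ih

/-- all ones -/
lemma good_ones (r j : ℕ) : Good r (2 ^ j - 1) := by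
  induction j with
  | zero => simpa using good_zero r
  | succ j ih =>
    have h1 : 1 ≤ 2 ^ j := Nat.one_le_two_pow
    have : 2 ^ (j + 1) - 1 = 2 * (2 ^ j - 1) + 1 := by
      rw [pow_succ]
      omega
    rw [this]
    exact (good_bit1 r _).2 ih


/-! ## Counting -/

open Classical in
/-- number of good numbers below `N` -/
noncomputable def cnt (r N : ℕ) : ℕ := Nat.count (Good r) N

lemma cnt_succ (r N : ℕ) [Decidable (Good r N)] :
    cnt r (N + 1) = cnt r N + if Good r N then 1 else 0 := by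
  unfold cnt
  rw [Nat.count_succ]
  congr

lemma cnt_le (r N : ℕ) : cnt r N ≤ N := by
  classical
  unfold cnt
  exact Nat.count_le _

open Classical in
lemma cnt_double (r N : ℕ) :
    cnt r (2 * N) = cnt r N + Nat.count (fun m => Good r (2 * m)) N := by
  induction N with
  | zero => simp [cnt]
  | succ N ih =>
    rw [show 2 * (N + 1) = 2 * N + 1 + 1 by ring, cnt_succ, cnt_succ, ih, cnt_succ r N,
      Nat.count_succ]
    have := good_bit1 r N
    by_cases h1 : Good r N <;> by_cases h2 : Good r (2 * N) <;> simp [h1, h2, this] <;> omega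

open Classical in
lemma cnt_even_le (r M : ℕ) (hr : 2 ≤ r) :
    Nat.count (fun m => Good r (2 * m)) (2 * M) ≤ cnt r M := by
  unfold cnt
  rw [Nat.count_eq_card_filter_range, Nat.count_eq_card_filter_range]
  have hsub : (Finset.range (2 * M)).filter (fun m => Good r (2 * m)) ⊆
      ((Finset.range M).filter (Good r)).image (fun n => 2 ^ (r - 1) * n) := by
    intro m hm
    rw [Finset.mem_filter, Finset.mem_range] at hm
    obtain ⟨hm1, hm2⟩ := hm
    obtain ⟨n, hn⟩ := good_even r (2 * m) hm2 (dvd_mul_right 2 m)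
    have hr1 : 2 ^ r = 2 * 2 ^ (r - 1) := by
      rw [← pow_succ']
      congr 1
      omega
    have hmn : m = 2 ^ (r - 1) * n := by
      rw [hr1, mul_assoc] at hn
      omega
    rw [Finset.mem_image]
    refine ⟨n, ?_, hmn.symm⟩
    rw [Finset.mem_filter, Finset.mem_range]
    refine ⟨?_, ?_⟩
    · have h2 : 2 ≤ 2 ^ (r - 1) := by
        calc 2 = 2 ^ 1 := rfl
          _ ≤ 2 ^ (r - 1) := Nat.pow_le_pow_right (by norm_num) (by omega)
      have h3 : 2 * n ≤ m := by
        rw [hmn]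
        exact Nat.mul_le_mul_right _ h2
      omega
    · rw [hn] at hm2
      exact (good_shift r n).1 hm2
  exact (Finset.card_le_card hsub).trans Finset.card_image_le

/-- `c r j` is the number of good numbers below `3 * 2^j`. -/
noncomputable def c (r j : ℕ) : ℕ := cnt r (3 * 2 ^ j)

lemma c_rec (r j : ℕ) (hr : 2 ≤ r) : c r (j + 2) ≤ c r (j + 1) + c r j := by
  unfold c
  have h1 : 3 * 2 ^ (j + 2) = 2 * (3 * 2 ^ (j + 1)) := by ring
  have h2 : 3 * 2 ^ (j + 1) = 2 * (3 * 2 ^ j) := by ring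
  rw [h1, cnt_double]
  apply Nat.add_le_add_left
  rw [h2]
  exact cnt_even_le r _ hr

/-- explicit good numbers `1...10...01...1` -/
lemma good_special (r s t : ℕ) : Good r (2 ^ s * (2 ^ r * (2 ^ t - 1)) + (2 ^ s - 1)) := by
  induction s with
  | zero =>
    have := (good_shift r (2 ^ t - 1)).2 (good_ones r t)
    simpa using this
  | succ s ih =>
    have h1 : 1 ≤ 2 ^ s := Nat.one_le_two_pow
    have h2 : 2 ^ (s + 1) * (2 ^ r * (2 ^ t - 1)) + (2 ^ (s + 1) - 1) =
        2 * (2 ^ s * (2 ^ r * (2 ^ t - 1)) + (2 ^ s - 1)) + 1 := by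
      have e : 2 ^ (s + 1) * (2 ^ r * (2 ^ t - 1)) = 2 * (2 ^ s * (2 ^ r * (2 ^ t - 1))) := by ring
      rw [e, pow_succ]
      omega
    rw [h2]
    exact (good_bit1 r _).2 ih

lemma good_special' (r s j : ℕ) (hs : s + r + 2 ≤ j + 2) :
    Good r (2 ^ (j + 2) - 1 - (2 ^ r - 1) * 2 ^ s) ∧
      3 * 2 ^ j ≤ 2 ^ (j + 2) - 1 - (2 ^ r - 1) * 2 ^ s ∧
      (2 ^ r - 1) * 2 ^ s + 1 ≤ 2 ^ (j + 2) := by
  obtain ⟨t, ht⟩ : ∃ t, j + 2 = s + r + (t + 2) := ⟨j + 2 - (s + r + 2), by omega⟩
  have hj : j = s + r + t := by omega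
  subst hj
  have e1 : 2 ^ (s + r + t + 2) = 2 ^ s * (2 ^ r * (2 ^ (t + 2))) := by ring
  have h1 : 1 ≤ 2 ^ s := Nat.one_le_two_pow
  have h2 : 1 ≤ 2 ^ r := Nat.one_le_two_pow
  have h3 : 1 ≤ 2 ^ t := Nat.one_le_two_pow
  have hkey : 2 ^ (s + r + t + 2) - 1 - (2 ^ r - 1) * 2 ^ s =
      2 ^ s * (2 ^ r * (2 ^ (t + 2) - 1)) + (2 ^ s - 1) := by
    rw [e1]
    zify [h1, h2, h3, Nat.one_le_two_pow (n := t + 2)]
    have hle1 : 1 ≤ 2 ^ s * (2 ^ r * 2 ^ (t + 2)) := by
      have := Nat.one_le_two_pow (n := t + 2)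
      exact Nat.one_le_iff_ne_zero.2 (by positivity)
    have hle2 : (2 ^ r - 1) * 2 ^ s ≤ 2 ^ s * (2 ^ r * 2 ^ (t + 2)) - 1 := by
      have : (2 ^ r - 1) * 2 ^ s + 2 ^ s = 2 ^ s * 2 ^ r := by
        zify [h2]
        ring
      have h4 : 2 ^ s * 2 ^ r ≤ 2 ^ s * (2 ^ r * 2 ^ (t + 2)) := by
        apply Nat.mul_le_mul_left
        exact Nat.le_mul_of_pos_right _ (by positivity)
      omega
    rw [Nat.cast_sub hle2, Nat.cast_sub hle1]
    push_cast [h2]
    ring
  refine ⟨?_, ?_, ?_⟩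
  · rw [hkey]
    exact good_special r s (t + 2)
  · rw [hkey]
    have e2 : 3 * 2 ^ (s + r + t) = 2 ^ s * (2 ^ r * (3 * 2 ^ t)) := by ring
    rw [e2]
    have h5 : 3 * 2 ^ t ≤ 2 ^ (t + 2) - 1 := by
      rw [pow_add]
      omega
    have := Nat.mul_le_mul_left (2 ^ s) (Nat.mul_le_mul_left (2 ^ r) h5)
    omega
  · have : (2 ^ r - 1) * 2 ^ s + 2 ^ s = 2 ^ s * 2 ^ r := by
      zify [h2]
      ring
    have h4 : 2 ^ s * 2 ^ r ≤ 2 ^ s * (2 ^ r * 2 ^ (t + 2)) := by
      apply Nat.mul_le_mul_left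
      exact Nat.le_mul_of_pos_right _ (by positivity)
    rw [e1]
    omega

open Classical in
lemma c_growth (r j : ℕ) (hr : 2 ≤ r) : (j + 1 - r) + c r j ≤ c r (j + 1) := by
  unfold c cnt
  rw [Nat.count_eq_card_filter_range, Nat.count_eq_card_filter_range]
  set A := (Finset.range (3 * 2 ^ j)).filter (Good r) with hA
  set B := (Finset.range (j + 1 - r)).image
    (fun s => 2 ^ (j + 2) - 1 - (2 ^ r - 1) * 2 ^ s) with hB
  have hsp : ∀ s < j + 1 - r, _ := fun s hs => good_special' r s j (by omega)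
  have hcardB : B.card = j + 1 - r := by
    rw [hB, Finset.card_image_of_injOn, Finset.card_range]
    intro s hs s' hs' heq
    simp only [Finset.coe_range, Set.mem_Iio] at hs hs'
    simp only at heq
    have h1 := (hsp s hs).2.2
    have h2 := (hsp s' hs').2.2
    have h3 : (2 ^ r - 1) * 2 ^ s = (2 ^ r - 1) * 2 ^ s' := by omega
    have h4 : 0 < 2 ^ r - 1 := by
      have : 2 ^ 1 ≤ 2 ^ r := Nat.pow_le_pow_right (by norm_num) (by omega)
      omega
    exact Nat.pow_right_injective le_rfl (Nat.eq_of_mul_eq_mul_left h4 h3)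
  have hdisj : Disjoint B A := by
    rw [Finset.disjoint_left]
    intro x hxB hxA
    rw [hB, Finset.mem_image] at hxB
    obtain ⟨s, hs, rfl⟩ := hxB
    rw [Finset.mem_range] at hs
    rw [hA, Finset.mem_filter, Finset.mem_range] at hxA
    have := (hsp s hs).2.1
    omega
  rw [← hcardB, ← Finset.card_union_of_disjoint hdisj]
  apply Finset.card_le_card
  intro x hx
  rw [Finset.mem_union] at hx
  rw [Finset.mem_filter, Finset.mem_range]
  rcases hx with hx | hx
  · rw [hB, Finset.mem_image] at hx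
    obtain ⟨s, hs, rfl⟩ := hx
    rw [Finset.mem_range] at hs
    refine ⟨?_, (hsp s hs).1⟩
    have e1 : 2 ^ (j + 2) = 4 * 2 ^ j := by ring
    have e2 : 3 * 2 ^ (j + 1) = 6 * 2 ^ j := by ring
    have : 0 < 2 ^ j := by positivity
    omega
  · rw [hA, Finset.mem_filter, Finset.mem_range] at hx
    refine ⟨?_, hx.2⟩
    have e2 : 3 * 2 ^ (j + 1) = 2 * (3 * 2 ^ j) := by ring
    omega

lemma c_diff (r j m : ℕ) (hr : 2 ≤ r) :
    c r (j + 1 + (m + 1)) + (j + 1 - r) ≤ 2 ^ (m + 1) * c r (j + 1) := by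
  induction m with
  | zero =>
    have h1 := c_rec r j hr
    have h2 := c_growth r j hr
    rw [show j + 1 + (0 + 1) = j + 2 by ring, zero_add, pow_one]
    omega
  | succ m ih =>
    have h1 : c r (j + 1 + (m + 1 + 1)) ≤ 2 * c r (j + 1 + (m + 1)) := by
      have h3 := c_rec r (j + 1 + m) hr
      have h4 := c_growth r (j + 1 + m) hr
      rw [show j + 1 + (m + 1 + 1) = j + 1 + m + 2 by ring,
        show j + 1 + (m + 1) = j + 1 + m + 1 by ring]
      omega
    have e : 2 ^ (m + 1 + 1) * c r (j + 1) = 2 * (2 ^ (m + 1) * c r (j + 1)) := by ring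
    rw [e]
    omega

lemma c_upper (r j : ℕ) (hr : 2 ≤ r) :
    c r j * 4 ^ j ≤ 6 * 7 ^ j ∧ c r (j + 1) * 4 ^ (j + 1) ≤ 6 * 7 ^ (j + 1) := by
  induction j with
  | zero =>
    have h0 : c r 0 ≤ 3 := by simpa [c] using cnt_le r 3
    have h1 : c r 1 ≤ 6 := by simpa [c] using cnt_le r 6
    constructor
    · simp; omega
    · simp; omega
  | succ j ih =>
    refine ⟨ih.2, ?_⟩
    have h1 := c_rec r j hr
    have h2 : c r (j + 1 + 1) * 4 ^ (j + 1 + 1) ≤
        4 * (c r (j + 1) * 4 ^ (j + 1)) + 16 * (c r j * 4 ^ j) := by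
      calc c r (j + 1 + 1) * 4 ^ (j + 1 + 1) ≤ (c r (j + 1) + c r j) * 4 ^ (j + 1 + 1) :=
            Nat.mul_le_mul_right _ h1
        _ = _ := by ring
    have h3 : (6 * 7 ^ (j + 1 + 1) : ℕ) = 294 * 7 ^ j := by ring
    have h4 : (6 * 7 ^ (j + 1) : ℕ) = 42 * 7 ^ j := by ring
    have h5 := ih.1
    have h6 := ih.2
    rw [h4] at h6
    rw [h3]
    have : 0 < 7 ^ j := by positivity
    omega

lemma c_small (r K : ℕ) (hr : 2 ≤ r) : ∀ᶠ j in Filter.atTop, K * c r j + K < 2 ^ j := by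
  have h1 : Filter.Tendsto (fun j : ℕ => 6 * (K : ℝ) * (7 / 8) ^ j + K * (1 / 2) ^ j)
      Filter.atTop (nhds 0) := by
    have ha := (tendsto_pow_atTop_nhds_zero_of_lt_one (r := (7 / 8 : ℝ)) (by norm_num)
      (by norm_num)).const_mul (6 * (K : ℝ))
    have hb := (tendsto_pow_atTop_nhds_zero_of_lt_one (r := (1 / 2 : ℝ)) (by norm_num)
      (by norm_num)).const_mul (K : ℝ)
    simpa using ha.add hb
  filter_upwards [h1.eventually (gt_mem_nhds one_pos)] with j hj
  have hu := (c_upper r j hr).1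
  have hu' : (c r j : ℝ) * 4 ^ j ≤ 6 * 7 ^ j := by exact_mod_cast hu
  have h2 : (c r j : ℝ) ≤ 6 * (7 / 4) ^ j := by
    rw [div_pow, ← mul_div_assoc, le_div_iff₀ (by positivity)]
    exact hu'
  have h3 : (6 * (K : ℝ) * (7 / 8) ^ j + K * (1 / 2) ^ j) * 2 ^ j =
      K * (6 * (7 / 4) ^ j) + K := by
    have e1 : ((7 / 8 : ℝ)) ^ j * 2 ^ j = (7 / 4) ^ j := by
      rw [← mul_pow]; norm_num
    have e2 : ((1 / 2 : ℝ)) ^ j * 2 ^ j = 1 := by
      rw [← mul_pow]; norm_num
    calc _ = 6 * (K : ℝ) * ((7 / 8) ^ j * 2 ^ j) + K * ((1 / 2) ^ j * 2 ^ j) := by ring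
      _ = _ := by rw [e1, e2]; ring
  have h4 : (K : ℝ) * c r j + K < 2 ^ j := by
    calc (K : ℝ) * c r j + K ≤ K * (6 * (7 / 4) ^ j) + K := by
          have := mul_le_mul_of_nonneg_left h2 (Nat.cast_nonneg K)
          linarith
      _ = (6 * (K : ℝ) * (7 / 8) ^ j + K * (1 / 2) ^ j) * 2 ^ j := h3.symm
      _ < 1 * 2 ^ j := by
          apply mul_lt_mul_of_pos_right hj (by positivity)
      _ = 2 ^ j := one_mul _
  exact_mod_cast h4


/-! ## The zeros -/

lemma infinite_zeros (r : ℕ) (hr : 2 ≤ r) : ({m | b r m = 0} : Set ℕ).Infinite := by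
  rw [Set.infinite_iff_exists_gt]
  intro a
  refine ⟨5 * 2 ^ a, ?_, ?_⟩
  · show b r (5 * 2 ^ a) = 0
    rw [b_eq_zero_iff]
    have : 0 < 2 ^ a := by positivity
    exact not_good_gap r _ a hr le_rfl (by omega)
  · have := Nat.lt_two_pow_self (n := a)
    omega

lemma count_zeros (r N : ℕ) : Nat.count (fun m => b r m = 0) N + cnt r N = N := by
  classical
  induction N with
  | zero => simp [cnt]
  | succ N ih =>
    rw [Nat.count_succ, cnt_succ]
    by_cases hg : Good r N
    · have h0 : ¬ (b r N = 0) := by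
        rw [b_eq_zero_iff]; simpa using hg
      rw [if_neg h0, if_pos hg]
      omega
    · have h0 : b r N = 0 := by
        rw [b_eq_zero_iff]; exact hg
      rw [if_pos h0, if_neg hg]
      omega

lemma h_strictMono (r : ℕ) (hr : 2 ≤ r) : StrictMono (h r) :=
  Nat.nth_strictMono (infinite_zeros r hr)

lemma h_range (r : ℕ) (hr : 2 ≤ r) : Set.range (h r) = {m | b r m = 0} :=
  Nat.range_nth_of_infinite (infinite_zeros r hr)

lemma h_mem (r n : ℕ) (hr : 2 ≤ r) : ¬ Good r (h r n) := by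
  rw [← b_eq_zero_iff]
  exact Nat.nth_mem_of_infinite (infinite_zeros r hr) n

/-- gaps between consecutive zeros are at most `4`. -/
lemma h_succ_le (r n : ℕ) (hr : 2 ≤ r) : h r (n + 1) ≤ h r n + 4 := by
  have hp : ∀ x, x % 4 = 2 → b r x = 0 := by
    intro x hx
    rw [b_eq_zero_iff]
    intro hg
    have h1 := good_even r x hg (by omega)
    have h2 : 2 ^ 2 ∣ 2 ^ r := pow_dvd_pow 2 hr
    have h3 := h2.trans h1
    omega
  -- a zero among the next four numbers
  obtain ⟨y, hy1, hy2, hy3⟩ : ∃ y, h r n < y ∧ y ≤ h r n + 4 ∧ b r y = 0 := by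
    have : ∃ i, i < 4 ∧ (h r n + 1 + i) % 4 = 2 := by
      have h4 : (h r n + 1) % 4 = 0 ∨ (h r n + 1) % 4 = 1 ∨ (h r n + 1) % 4 = 2 ∨
        (h r n + 1) % 4 = 3 := by omega
      rcases h4 with h4 | h4 | h4 | h4
      · exact ⟨2, by omega, by omega⟩
      · exact ⟨1, by omega, by omega⟩
      · exact ⟨0, by omega, by omega⟩
      · exact ⟨3, by omega, by omega⟩
    obtain ⟨i, hi, hmod⟩ := this
    exact ⟨h r n + 1 + i, by omega, by omega, hp _ hmod⟩
  have hc1 : Nat.count (fun m => b r m = 0) (h r n + 1) = n + 1 :=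
    Nat.count_nth_succ_of_infinite (infinite_zeros r hr) n
  have hc2 : n + 1 < Nat.count (fun m => b r m = 0) (y + 1) := by
    rw [Nat.count_succ, if_pos hy3]
    have := Nat.count_monotone (fun m => b r m = 0) (show h r n + 1 ≤ y by omega)
    omega
  have := Nat.nth_lt_of_lt_count hc2
  show Nat.nth _ (n + 1) ≤ _
  omega

/-- the landmark index -/
noncomputable def lm (r j : ℕ) : ℕ := Nat.count (fun m => b r m = 0) (3 * 2 ^ (j + 1) - 1)

lemma lm_count (r j i : ℕ) (hr : 2 ≤ r) (hi : i < 2 ^ j) :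
    Nat.count (fun m => b r m = 0) (3 * 2 ^ (j + 1) - 1 - i) + i = lm r j := by
  induction i with
  | zero => rfl
  | succ i ih =>
    rw [← ih (by omega)]
    have e : 3 * 2 ^ (j + 1) = 6 * 2 ^ j := by ring
    have h1 : 3 * 2 ^ (j + 1) - 1 - i = (3 * 2 ^ (j + 1) - 1 - (i + 1)) + 1 := by
      rw [e]; omega
    have h2 : b r (3 * 2 ^ (j + 1) - 1 - (i + 1)) = 0 := by
      rw [b_eq_zero_iff]
      apply not_good_gap r _ j hr
      · rw [e]; omega
      · rw [e]; omega
    rw [h1, Nat.count_succ, if_pos h2]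
    omega

lemma lm_h (r j i : ℕ) (hr : 2 ≤ r) (hi : i < 2 ^ j) :
    h r (lm r j - i) = 3 * 2 ^ (j + 1) - 1 - i ∧ i ≤ lm r j := by
  have h1 := lm_count r j i hr hi
  refine ⟨?_, by omega⟩
  have h2 : b r (3 * 2 ^ (j + 1) - 1 - i) = 0 := by
    rw [b_eq_zero_iff]
    have e : 3 * 2 ^ (j + 1) = 6 * 2 ^ j := by ring
    apply not_good_gap r _ j hr
    · rw [e]; omega
    · rw [e]; omega
  have h3 : lm r j - i = Nat.count (fun m => b r m = 0) (3 * 2 ^ (j + 1) - 1 - i) := by omega
  rw [h3]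
  exact Nat.nth_count h2

lemma lm_eq (r j : ℕ) (hr : 2 ≤ r) : lm r j + c r (j + 1) + 1 = 3 * 2 ^ (j + 1) := by
  classical
  have h1 := count_zeros r (3 * 2 ^ (j + 1) - 1)
  have e : 3 * 2 ^ (j + 1) = 6 * 2 ^ j := by ring
  have hpos : 0 < 2 ^ j := by positivity
  have h2 : ¬ Good r (3 * 2 ^ (j + 1) - 1) := by
    apply not_good_gap r _ j hr
    · rw [e]; omega
    · rw [e]; omega
  have h3 : cnt r (3 * 2 ^ (j + 1)) = cnt r (3 * 2 ^ (j + 1) - 1) := by
    have h4 : 3 * 2 ^ (j + 1) = (3 * 2 ^ (j + 1) - 1) + 1 := by rw [e]; omega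
    conv_lhs => rw [h4]
    rw [cnt_succ, if_neg h2, add_zero]
  unfold lm c
  omega

lemma lm_jump (r i j : ℕ) (hr : 2 ≤ r) (hj : r * i = j + 1) :
    h r (lm r j) + 2 ≤ h r (lm r j + 1) := by
  have h1 := (lm_h r j 0 hr (by positivity)).1
  rw [Nat.sub_zero, Nat.sub_zero] at h1
  have h2 := h_strictMono r hr (Nat.lt_succ_self (lm r j))
  have h3 := h_mem r (lm r j + 1) hr
  have h4 := good_landmark r i
  rw [hj] at h4
  have h5 : h r (lm r j + 1) ≠ 3 * 2 ^ (j + 1) := by
    intro heq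
    rw [heq] at h3
    exact h3 h4
  have hpos : 0 < 2 ^ (j + 1) := by positivity
  have h6 : h r (lm r j) < h r (lm r j + 1) := h2
  omega

/-! ## The main argument -/

/-- the jumps of `h` -/
noncomputable def dd (r n : ℕ) : ℤ := (h r (n + 1) : ℤ) - h r n

lemma dd_lm (r i j : ℕ) (hr : 2 ≤ r) (hj : r * i = j + 1) : dd r (lm r j) ≠ 1 := by
  have := lm_jump r i j hr hj
  unfold dd
  omega

lemma dd_before (r j i : ℕ) (hr : 2 ≤ r) (hi1 : 1 ≤ i) (hi : i < 2 ^ j) :
    dd r (lm r j - i) = 1 := by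
  have h1 := lm_h r j i hr hi
  have h2 := lm_h r j (i - 1) hr (by omega)
  unfold dd
  have e : lm r j - i + 1 = lm r j - (i - 1) := by
    have := h1.2
    omega
  rw [e, h1.1, h2.1]
  have e2 : 3 * 2 ^ (j + 1) = 6 * 2 ^ j := by ring
  rw [e2]
  omega

lemma isFirst_lm (r k i j t : ℕ) (hr : 2 ≤ r) (hk : 1 ≤ k) (hj : r * i = j + 1)
    (ht : k ^ t ≤ 2 ^ j) :
    IsFirst (fun n => dd r n ≠ 1) k (lm r j / k ^ t) t (lm r j % k ^ t) := by
  have hkt : 0 < k ^ t := by positivity
  have hdm := Nat.div_add_mod (lm r j) (k ^ t)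
  have hlt := Nat.mod_lt (lm r j) hkt
  refine ⟨hlt, ?_, ?_⟩
  · rw [hdm]
    exact dd_lm r i j hr hj
  · intro s' hs' hne
    apply hne
    have e : k ^ t * (lm r j / k ^ t) + s' = lm r j - (lm r j % k ^ t - s') := by
      generalize lm r j % k ^ t = y at *
      generalize k ^ t * (lm r j / k ^ t) = z at *
      omega
    rw [e]
    exact dd_before r j _ hr (by omega) (by omega)

lemma IsFirst.unique {P : ℕ → Prop} {k n t s s' : ℕ} (h1 : IsFirst P k n t s)
    (h2 : IsFirst P k n t s') : s = s' := by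
  rcases lt_trichotomy s s' with h3 | h3 | h3
  · exact absurd h1.2.1 (h2.2.2 s h3)
  · exact h3
  · exact absurd h2.2.1 (h1.2.2 s' h3)

lemma first_scale_iter (P : ℕ → Prop) (k : ℕ) (hk : 2 ≤ k) (t0 π : ℕ) (hπ : 1 ≤ π)
    (hper : ∀ t, t0 ≤ t → ∀ n, NE P k n (t + π) ↔ NE P k n t) (e : ℕ) :
    ∀ t, t0 ≤ t → ∀ n s, IsFirst P k n t s →
      ∃ s', IsFirst P k n (t + π * e) s' ∧
        |(s' : ℤ) - k ^ (π * e) * s| ≤ k ^ (t0 + π) * (k ^ (π * e) - 1) := by
  induction e with
  | zero =>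
    intro t ht n s hs
    refine ⟨s, by simpa using hs, by simp⟩
  | succ e ih =>
    intro t ht n s hs
    obtain ⟨s1, hs1, hb1⟩ := ih t ht n s hs
    obtain ⟨s2, hs2, hb2⟩ := first_scale P k (by omega) t0 π hper (t + π * e) (by omega) n s1 hs1
    refine ⟨s2, ?_, ?_⟩
    · have : t + π * (e + 1) = t + π * e + π := by ring
      rw [this]
      exact hs2
    · have hkπ : (2 : ℤ) ≤ (k : ℤ) ^ π := by
        have : 2 ≤ k ^ π := by
          calc 2 ≤ k := hk
            _ = k ^ 1 := (pow_one k).symm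
            _ ≤ k ^ π := Nat.pow_le_pow_right (by omega) hπ
        exact_mod_cast this
      have hC : (0 : ℤ) ≤ (k : ℤ) ^ (t0 + π) := by positivity
      have e1 : (s2 : ℤ) - k ^ (π * (e + 1)) * s =
          ((s2 : ℤ) - k ^ π * s1) + k ^ π * ((s1 : ℤ) - k ^ (π * e) * s) := by
        ring
      rw [e1]
      calc |((s2 : ℤ) - k ^ π * s1) + k ^ π * ((s1 : ℤ) - k ^ (π * e) * s)|
          ≤ |((s2 : ℤ) - k ^ π * s1)| + |(k : ℤ) ^ π * ((s1 : ℤ) - k ^ (π * e) * s)| :=
            abs_add_le _ _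
        _ = |((s2 : ℤ) - k ^ π * s1)| + (k : ℤ) ^ π * |((s1 : ℤ) - k ^ (π * e) * s)| := by
            rw [abs_mul, abs_of_nonneg (a := (k : ℤ) ^ π) (by positivity)]
        _ ≤ k ^ (t0 + π) + (k : ℤ) ^ π * (k ^ (t0 + π) * (k ^ (π * e) - 1)) := by
            apply add_le_add hb2
            exact mul_le_mul_of_nonneg_left hb1 (by positivity)
        _ = k ^ (t0 + π) * (k ^ (π * (e + 1)) - k ^ π + 1) := by ring
        _ ≤ k ^ (t0 + π) * (k ^ (π * (e + 1)) - 1) := by
            apply mul_le_mul_of_nonneg_left _ hC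
            linarith


/-- the level attached to a landmark -/
def lev (k j : ℕ) : ℕ := Nat.log k (2 ^ j)

lemma lev_le (k j : ℕ) : k ^ lev k j ≤ 2 ^ j :=
  Nat.pow_log_le_self k (by positivity)

lemma lt_lev (k j : ℕ) (hk : 2 ≤ k) : 2 ^ j < k ^ (lev k j + 1) :=
  Nat.lt_pow_succ_log_self (by omega) _

lemma lev_mono (k : ℕ) : Monotone (lev k) := by
  intro a b hab
  exact Nat.log_mono_right (Nat.pow_le_pow_right (by norm_num) hab)

lemma block_lt (r k j : ℕ) (hr : 2 ≤ r) (hk : 2 ≤ k) : lm r j / k ^ lev k j < 6 * k := by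
  have h1 := lt_lev k j hk
  have h2 := lm_eq r j hr
  have hkt : 0 < k ^ lev k j := by positivity
  rw [Nat.div_lt_iff_lt_mul hkt]
  calc lm r j < 3 * 2 ^ (j + 1) := by omega
    _ = 6 * 2 ^ j := by ring
    _ < 6 * k ^ (lev k j + 1) := by omega
    _ = 6 * k * k ^ lev k j := by ring

lemma main (r k : ℕ) (hr : 2 ≤ r) (hk : 2 ≤ k) : ¬ IsRegular k (fun n => (h r n : ℤ)) := by
  intro hreg
  have hdreg : IsRegular k (dd r) := diff_regular k (fun n => (h r n : ℤ)) hreg
  have hdbd : ∀ n, |dd r n| ≤ 4 := by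
    intro n
    have h1 := h_succ_le r n hr
    have h2 : h r n < h r (n + 1) := h_strictMono r hr (Nat.lt_succ_self n)
    unfold dd
    rw [abs_le]
    constructor <;> omega
  obtain ⟨Q, hQ, cl, hcl⟩ := exists_classes k (dd r) 4 hdbd hdreg
  obtain ⟨t0, π, hπ, hper⟩ := NE_periodic (fun n => dd r n ≠ 1) k (by omega) Q cl
    (fun n m hnm t s hs => by rw [hcl n m hnm t s hs])
  -- constants
  obtain ⟨M, hM⟩ : ∃ M, M = 6 * k * π := ⟨_, rfl⟩
  obtain ⟨mmax, hmmax⟩ : ∃ mmax, mmax = r * M := ⟨_, rfl⟩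
  obtain ⟨C', hC'⟩ : ∃ C' : ℕ, C' = k ^ (t0 + π) * (2 ^ mmax * k) := ⟨_, rfl⟩
  obtain ⟨K, hK⟩ : ∃ K : ℕ, K = 2 ^ mmax + C' + 2 := ⟨_, rfl⟩
  obtain ⟨J0, hJ0⟩ := Filter.eventually_atTop.1 (c_small r K hr)
  -- starting index
  obtain ⟨i0, hi0⟩ : ∃ i0, i0 = J0 + k ^ t0 + C' + r + 2 := ⟨_, rfl⟩
  -- the sequence of `j`s : `j + 1 = r * (i0 + x)`
  obtain ⟨jj, hjj⟩ : ∃ jj : ℕ → ℕ, ∀ x, r * (i0 + x) = jj x + 1 := by
    refine ⟨fun x => r * (i0 + x) - 1, fun x => ?_⟩
    have : 1 ≤ r * (i0 + x) := by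
      have h1 : 1 ≤ i0 + x := by omega
      calc 1 = 1 * 1 := rfl
        _ ≤ r * (i0 + x) := Nat.mul_le_mul (by omega) h1
    show r * (i0 + x) = r * (i0 + x) - 1 + 1
    omega
  have hjjlarge : ∀ x, J0 + k ^ t0 + C' + r + 1 ≤ jj x := by
    intro x
    have h1 : i0 ≤ r * (i0 + x) := by
      calc i0 ≤ i0 + x := by omega
        _ = 1 * (i0 + x) := by ring
        _ ≤ r * (i0 + x) := Nat.mul_le_mul_right _ (by omega)
    have := hjj x
    omega
  -- pigeonhole
  obtain ⟨x, y, hxy, hφ⟩ := Fintype.exists_ne_map_eq_of_card_lt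
    (fun x : Fin (M + 1) => ((⟨lm r (jj x) / k ^ lev k (jj x), block_lt r k _ hr hk⟩,
      ⟨lev k (jj x) % π, Nat.mod_lt _ hπ⟩) : Fin (6 * k) × Fin π)) (by
    simp only [Fintype.card_prod, Fintype.card_fin]
    omega)
  have key : ∀ x y : ℕ, x < y → y ≤ M →
      lm r (jj x) / k ^ lev k (jj x) = lm r (jj y) / k ^ lev k (jj y) →
      lev k (jj x) % π = lev k (jj y) % π → False := by
    intro x y hxy hyM ha ht
    have hjjx := hjj x
    have hjjy := hjj y
    have hlarge1 := hjjlarge x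
    obtain ⟨j1, hj1⟩ : ∃ j1, j1 = jj x := ⟨_, rfl⟩
    obtain ⟨j2, hj2⟩ : ∃ j2, j2 = jj y := ⟨_, rfl⟩
    rw [← hj1] at hjjx hlarge1 ha ht
    rw [← hj2] at hjjy ha ht
    obtain ⟨m, hm⟩ : ∃ m, j2 = j1 + (m + 1) := by
      refine ⟨j2 - j1 - 1, ?_⟩
      have h3 : r * (i0 + x) < r * (i0 + y) := Nat.mul_lt_mul_of_pos_left (by omega) (by omega)
      omega
    have hmmax' : m + 1 ≤ mmax := by
      have h3 : r * (i0 + y) = r * (i0 + x) + r * (y - x) := by
        rw [← Nat.mul_add]
        congr 1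
        omega
      have h4 : r * (y - x) ≤ r * M := Nat.mul_le_mul_left _ (by omega)
      omega
    have hlev : lev k j1 ≤ lev k j2 := lev_mono k (by omega)
    obtain ⟨e, he⟩ : ∃ e, lev k j2 = lev k j1 + π * e := by
      have h1 : (lev k j2 - lev k j1) % π = 0 := Nat.sub_mod_eq_zero_of_mod_eq ht.symm
      obtain ⟨e, he⟩ := Nat.dvd_of_mod_eq_zero h1
      exact ⟨e, by omega⟩
    -- level is at least t0
    have ht0 : t0 ≤ lev k j1 := by
      unfold lev
      apply Nat.le_log_of_pow_le (by omega)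
      have : j1 < 2 ^ j1 := Nat.lt_two_pow_self
      omega
    have hF1 := isFirst_lm r k (i0 + x) j1 (lev k j1) hr (by omega) hjjx (lev_le k j1)
    have hF2 := isFirst_lm r k (i0 + y) j2 (lev k j2) hr (by omega) hjjy (lev_le k j2)
    obtain ⟨s', hs', hbd⟩ := first_scale_iter _ k hk t0 π hπ hper e (lev k j1) ht0 _ _ hF1
    rw [← he, ha] at hs'
    have hs'eq := hs'.unique hF2
    -- the key estimate
    have hest : |(lm r j2 : ℤ) - k ^ (π * e) * lm r j1| ≤ C' := by
      have e1 : (lm r j2 : ℤ) = k ^ (lev k j2) * (lm r j2 / k ^ lev k j2 : ℕ) +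
          (lm r j2 % k ^ lev k j2 : ℕ) := by
        exact_mod_cast (Nat.div_add_mod (lm r j2) (k ^ lev k j2)).symm
      have e2 : (lm r j1 : ℤ) = k ^ (lev k j1) * (lm r j2 / k ^ lev k j2 : ℕ) +
          (lm r j1 % k ^ lev k j1 : ℕ) := by
        rw [← ha]
        exact_mod_cast (Nat.div_add_mod (lm r j1) (k ^ lev k j1)).symm
      have e3 : (lm r j2 : ℤ) - k ^ (π * e) * lm r j1 =
          (s' : ℤ) - k ^ (π * e) * (lm r j1 % k ^ lev k j1 : ℕ) := by
        rw [hs'eq]
        generalize ((lm r j2 / k ^ lev k j2 : ℕ) : ℤ) = A at e1 e2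
        generalize ((lm r j2 % k ^ lev k j2 : ℕ) : ℤ) = B at e1 ⊢
        generalize ((lm r j1 % k ^ lev k j1 : ℕ) : ℤ) = D at e2 ⊢
        rw [e1, e2, he, pow_add]
        ring
      rw [e3]
      refine hbd.trans ?_
      have h1 : (k : ℤ) ^ (π * e) - 1 ≤ (2 ^ mmax * k : ℕ) := by
        have h2 : k ^ (π * e) ≤ 2 ^ mmax * k := by
          have h3 := lev_le k j2
          rw [he, pow_add] at h3
          have h4 := lt_lev k j1 hk
          have h5 : 2 ^ j2 ≤ 2 ^ mmax * 2 ^ j1 := by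
            rw [← pow_add]
            exact Nat.pow_le_pow_right (by norm_num) (by omega)
          have hkt : 0 < k ^ lev k j1 := by positivity
          by_contra hcon
          push Not at hcon
          have h6 : k ^ lev k j1 * (2 ^ mmax * k) < k ^ lev k j1 * k ^ (π * e) :=
            Nat.mul_lt_mul_of_pos_left hcon hkt
          have h7 : 2 ^ mmax * 2 ^ j1 ≤ 2 ^ mmax * k ^ (lev k j1 + 1) :=
            Nat.mul_le_mul_left _ h4.le
          have h8 : 2 ^ mmax * k ^ (lev k j1 + 1) = k ^ lev k j1 * (2 ^ mmax * k) := by ring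
          omega
        have : ((k ^ (π * e) : ℕ) : ℤ) ≤ (2 ^ mmax * k : ℕ) := by exact_mod_cast h2
        push_cast at this ⊢
        linarith
      rw [hC']
      push_cast
      push_cast at h1
      exact mul_le_mul_of_nonneg_left h1 (by positivity)
    -- arithmetic of the landmarks
    have hl1 := lm_eq r j1 hr
    have hl2 := lm_eq r j2 hr
    obtain ⟨j0, hj0⟩ : ∃ j0, j1 = j0 + 1 := ⟨j1 - 1, by omega⟩
    have hE : c r (j2 + 1) + (j1 + 1 - r) ≤ 2 ^ (m + 1) * c r (j1 + 1) := by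
      have := c_diff r j1 m hr
      rw [hm]
      rw [show j1 + (m + 1) + 1 = j1 + 1 + (m + 1) by ring]
      exact this
    have hsmall := hJ0 (j1 + 1) (by omega)
    have hpow : 2 ^ (j2 + 1) = 2 ^ (m + 1) * 2 ^ (j1 + 1) := by
      rw [hm, ← pow_add]
      congr 1
      ring
    have hmm : 2 ^ (m + 1) ≤ 2 ^ mmax := Nat.pow_le_pow_right (by norm_num) hmmax'
    -- pass to integers
    have hnj2 : (lm r j2 : ℤ) = 2 ^ (m + 1) * lm r j1 + (2 ^ (m + 1) - 1) +
        (2 ^ (m + 1) * c r (j1 + 1) - c r (j2 + 1)) := by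
      have h1 : (lm r j1 : ℤ) = 3 * 2 ^ (j1 + 1) - 1 - c r (j1 + 1) := by
        have : ((lm r j1 + c r (j1 + 1) + 1 : ℕ) : ℤ) = ((3 * 2 ^ (j1 + 1) : ℕ) : ℤ) := by
          rw [hl1]
        push_cast at this
        linarith
      have h2 : (lm r j2 : ℤ) = 3 * (2 ^ (m + 1) * 2 ^ (j1 + 1)) - 1 - c r (j2 + 1) := by
        have : ((lm r j2 + c r (j2 + 1) + 1 : ℕ) : ℤ) = ((3 * 2 ^ (j2 + 1) : ℕ) : ℤ) := by
          rw [hl2]
        rw [hpow] at this
        push_cast at this
        linarith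
      rw [h2, h1]
      ring
    have hEz : (c r (j2 + 1) : ℤ) + (C' + 1) ≤ 2 ^ (m + 1) * c r (j1 + 1) := by
      have h1 : C' + 1 ≤ j1 + 1 - r := by omega
      have h2 : c r (j2 + 1) + (C' + 1) ≤ 2 ^ (m + 1) * c r (j1 + 1) := by omega
      exact_mod_cast h2
    have hmmz : (2 : ℤ) ^ (m + 1) ≤ 2 ^ mmax := by exact_mod_cast hmm
    have hm1 : (1 : ℤ) ≤ 2 ^ (m + 1) := by exact_mod_cast Nat.one_le_two_pow
    have hcz : (0 : ℤ) ≤ c r (j1 + 1) := by positivity
    have hcz2 : (0 : ℤ) ≤ c r (j2 + 1) := by positivity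
    -- `lm r j1` is large
    have hbig : (2 : ℤ) ^ (m + 1) * c r (j1 + 1) + 2 ^ (m + 1) + C' < lm r j1 := by
      have h1 : (2 ^ mmax + C' + 2) * c r (j1 + 1) + (2 ^ mmax + C' + 2) < 2 ^ (j1 + 1) := by
        rw [← hK]
        exact hsmall
      have h2 : 2 ^ (m + 1) * c r (j1 + 1) ≤ 2 ^ mmax * c r (j1 + 1) := Nat.mul_le_mul_right _ hmm
      have h3 : 2 ^ (m + 1) * c r (j1 + 1) + 2 ^ (m + 1) + C' < lm r j1 := by
        have h4 : (2 ^ mmax + C' + 2) * c r (j1 + 1) =
            2 ^ mmax * c r (j1 + 1) + C' * c r (j1 + 1) + 2 * c r (j1 + 1) := by ring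
        rw [h4] at h1
        generalize C' * c r (j1 + 1) = u at h1
        generalize 2 ^ mmax * c r (j1 + 1) = v at h1 h2
        generalize 2 ^ (m + 1) * c r (j1 + 1) = w at h2 ⊢
        omega
      exact_mod_cast h3
    rw [abs_le] at hest
    have hC'z : (0 : ℤ) ≤ C' := by positivity
    -- compare `k^(π e)` and `2^(m+1)`
    rcases lt_trichotomy (k ^ (π * e)) (2 ^ (m + 1)) with hlt | heq | hgt
    · have h1 : ((k : ℤ) ^ (π * e) + 1) ≤ 2 ^ (m + 1) := by exact_mod_cast hlt
      have h2 : ((k : ℤ) ^ (π * e) + 1) * lm r j1 ≤ 2 ^ (m + 1) * lm r j1 :=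
        mul_le_mul_of_nonneg_right h1 (by positivity)
      linarith [hest.2]
    · have h1 : ((k : ℤ) ^ (π * e)) = 2 ^ (m + 1) := by exact_mod_cast heq
      rw [h1, hnj2] at hest
      linarith [hest.2]
    · have h1 : (2 : ℤ) ^ (m + 1) + 1 ≤ (k : ℤ) ^ (π * e) := by exact_mod_cast hgt
      have h2 : ((2 : ℤ) ^ (m + 1) + 1) * lm r j1 ≤ (k : ℤ) ^ (π * e) * lm r j1 :=
        mul_le_mul_of_nonneg_right h1 (by positivity)
      linarith [hest.1]
  have h1 := congrArg (fun p => (p.1 : ℕ)) hφ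
  have h2 := congrArg (fun p => (p.2 : ℕ)) hφ
  have hxy' : (x : ℕ) ≠ y := fun hh => hxy (Fin.ext hh)
  have hx : (x : ℕ) ≤ M := Nat.lt_succ_iff.1 x.2
  have hy : (y : ℕ) ≤ M := Nat.lt_succ_iff.1 y.2
  rcases lt_or_gt_of_ne hxy' with hlt | hlt
  · exact key x y hlt hy h1 h2
  · exact key y x hlt hx h1.symm h2.symm

/-- For every `r ≥ 2`: the sequence `h r` is the strictly increasing enumeration of the zeros of
the generalized Baum-Sweet sequence `b r`, and it is not `k`-regular for any `k ≥ 2`. -/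
theorem result (r : ℕ) (hr : 2 ≤ r) :
    StrictMono (h r) ∧ Set.range (h r) = {m | b r m = 0} ∧
      ∀ k : ℕ, 2 ≤ k → ¬ IsRegular k (fun n => (h r n : ℤ)) :=
  ⟨h_strictMono r hr, h_range r hr, fun k hk => main r k hr hk⟩

end Pool.Agent.Results.MP_0f6055_nt.ZerosNotRegular
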